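import Mathlib

set_option autoImplicit false

open Finset ZMod

namespace Pool.Agent.Lib.MP_090305_nt

/-- The symmetric Kloosterman sum `S(t,t;c)`. -/
noncomputable def kap (c : ℕ) [NeZero c] (t : ZMod c) : ℂ :=
  ∑ x : (ZMod c)ˣ, stdAddChar (t * ((x : ZMod c) + ((x⁻¹ : (ZMod c)ˣ) : ZMod c)))

lemma kap_neg (c : ℕ) [NeZero c] (t : ZMod c) : kap c (-t) = kap c t := by
  unfold kap
  rw [← Equiv.sum_comp (Equiv.neg (ZMod c)ˣ)]
  refine Finset.sum_congr rfl fun x _ => ?_
  congr 1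
  simp only [Equiv.neg_apply, Units.val_neg, inv_neg]
  ring

lemma conj_std {c : ℕ} [NeZero c] (y : ZMod c) :
    (starRingEnd ℂ) (stdAddChar y) = stdAddChar (-y) := by
  rw [AddChar.map_neg_eq_conj]

lemma kap_conj (c : ℕ) [NeZero c] (t : ZMod c) : (starRingEnd ℂ) (kap c t) = kap c t := by
  conv_rhs => rw [← kap_neg]
  unfold kap
  rw [map_sum]
  refine Finset.sum_congr rfl fun x _ => ?_
  rw [conj_std]
  congr 1
  ring

lemma kap_re (c : ℕ) [NeZero c] (t : ZMod c) : ((kap c t).re : ℂ) = kap c t :=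
  Complex.conj_eq_iff_re.mp (kap_conj c t)

/-- splitting of the standard character along coprime moduli -/
lemma std_split (m n : ℕ) [NeZero m] [NeZero n] [NeZero (m * n)] (h : m.Coprime n)
    (y : ZMod (m * n)) :
    stdAddChar y = stdAddChar (((n : ZMod m))⁻¹ * (ZMod.castHom (dvd_mul_right m n) (ZMod m) y)) *
      stdAddChar (((m : ZMod n))⁻¹ * (ZMod.castHom (dvd_mul_left n m) (ZMod n) y)) := by
  obtain ⟨k, rfl⟩ := ZMod.intCast_surjective y
  have hb := Nat.gcd_eq_gcd_ab m n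
  rw [h.gcd_eq_one] at hb
  set a := Nat.gcdA m n
  set b := Nat.gcdB m n
  have h1 : ((n : ZMod m))⁻¹ = (b : ZMod m) := by
    apply ZMod.inv_eq_of_mul_eq_one
    have := congrArg (Int.cast : ℤ → ZMod m) hb
    push_cast at this
    simp at this
    exact this.symm
  have h2 : ((m : ZMod n))⁻¹ = (a : ZMod n) := by
    apply ZMod.inv_eq_of_mul_eq_one
    have := congrArg (Int.cast : ℤ → ZMod n) hb
    push_cast at this
    simp at this
    exact this.symm
  rw [h1, h2, map_intCast (ZMod.castHom (dvd_mul_right m n) (ZMod m)),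
    map_intCast (ZMod.castHom (dvd_mul_left n m) (ZMod n)), ← Int.cast_mul, ← Int.cast_mul, stdAddChar_coe,
    stdAddChar_coe, stdAddChar_coe, ← Complex.exp_add]
  congr 1
  have hm : (m : ℂ) ≠ 0 := Nat.cast_ne_zero.mpr (NeZero.ne m)
  have hn : (n : ℂ) ≠ 0 := Nat.cast_ne_zero.mpr (NeZero.ne n)
  have hb' : (1 : ℂ) = m * a + n * b := by exact_mod_cast hb
  push_cast
  field_simp
  linear_combination (k : ℂ) * hb'

lemma kap_mul (m n : ℕ) [NeZero m] [NeZero n] [NeZero (m * n)] (h : m.Coprime n)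
    (t : ZMod (m * n)) :
    kap (m * n) t = kap m (((n : ZMod m))⁻¹ * (ZMod.castHom (dvd_mul_right m n) (ZMod m) t)) *
      kap n (((m : ZMod n))⁻¹ * (ZMod.castHom (dvd_mul_left n m) (ZMod n) t)) := by
  unfold kap
  rw [Finset.sum_mul_sum, ← Finset.sum_product']
  let e : (ZMod (m * n))ˣ ≃* (ZMod m)ˣ × (ZMod n)ˣ :=
    (Units.mapEquiv (ZMod.chineseRemainder h).toMulEquiv).trans MulEquiv.prodUnits
  have he1 : ∀ x : (ZMod (m * n))ˣ, (((e x).1 : (ZMod m)ˣ) : ZMod m) =
      ZMod.castHom (dvd_mul_right m n) (ZMod m) x := by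
    intro x
    simp [e, MulEquiv.prodUnits, ZMod.chineseRemainder]
  have he2 : ∀ x : (ZMod (m * n))ˣ, (((e x).2 : (ZMod n)ˣ) : ZMod n) =
      ZMod.castHom (dvd_mul_left n m) (ZMod n) x := by
    intro x
    simp [e, MulEquiv.prodUnits, ZMod.chineseRemainder]
  rw [Finset.univ_product_univ, ← Equiv.sum_comp e.toEquiv]
  refine Finset.sum_congr rfl fun x _ => ?_
  rw [std_split m n h]
  have i1 : ((e x).1)⁻¹ = (e x⁻¹).1 := by rw [map_inv]; rfl
  have i2 : ((e x).2)⁻¹ = (e x⁻¹).2 := by rw [map_inv]; rfl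
  simp only [MulEquiv.toEquiv_eq_coe, EquivLike.coe_coe]
  rw [i1, i2, he1, he2, he1, he2]
  simp only [map_mul, map_add, mul_assoc]

lemma kap_ne_zero (p : ℕ) [hp : Fact p.Prime] (t : ZMod p) : kap p t ≠ 0 := by
  intro h0
  let ζ : ℂ := stdAddChar (1 : ZMod p)
  have hζ : IsPrimitiveRoot ζ p := by
    have := Complex.isPrimitiveRoot_exp p hp.out.ne_zero
    convert this using 1
    have h1 := stdAddChar_coe (N := p) 1
    simp only [Int.cast_one, mul_one] at h1
    exact h1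
  let f : (ZMod p)ˣ → ℕ := fun x => (t * ((x : ZMod p) + ((x⁻¹ : (ZMod p)ˣ) : ZMod p))).val
  let Q : Polynomial ℤ := ∑ x : (ZMod p)ˣ, Polynomial.X ^ (f x)
  have hQ : Polynomial.aeval ζ Q = 0 := by
    rw [← h0]
    unfold kap
    simp only [Q, map_sum, map_pow, Polynomial.aeval_X]
    refine Finset.sum_congr rfl fun x _ => ?_
    simp only [ζ, f]
    rw [← AddChar.map_nsmul_eq_pow, nsmul_eq_mul, mul_one, ZMod.natCast_zmod_val]
  have hint : IsIntegral ℤ ζ := hζ.isIntegral hp.out.pos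
  have hdvd : minpoly ℤ ζ ∣ Q := minpoly.isIntegrallyClosed_dvd hint hQ
  rw [← Polynomial.cyclotomic_eq_minpoly hζ hp.out.pos] at hdvd
  have h2 := Polynomial.eval_dvd (x := (1 : ℤ)) hdvd
  rw [Polynomial.eval_one_cyclotomic_prime] at h2
  have h3 : Polynomial.eval (1 : ℤ) Q = ((p - 1 : ℕ) : ℤ) := by
    simp only [Q, Polynomial.eval_finsetSum, Polynomial.eval_pow, Polynomial.eval_X, one_pow,
      Finset.sum_const, Finset.card_univ, ZMod.card_units, nsmul_eq_mul, mul_one]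
  rw [h3] at h2
  have h4 : p ∣ p - 1 := by exact_mod_cast h2
  have h5 := hp.out.two_le
  have := Nat.le_of_dvd (by omega) h4
  omega

/-- `kk m a` is the real number `S(a⁻¹, a⁻¹; m)`. -/
noncomputable def kk (m a : ℕ) : ℝ :=
  if h : m = 0 then 0 else
    haveI : NeZero m := ⟨h⟩
    (kap m ((a : ZMod m)⁻¹)).re

lemma kk_eq (m a : ℕ) [NeZero m] : (kk m a : ℂ) = kap m ((a : ZMod m)⁻¹) := by
  unfold kk
  rw [dif_neg (NeZero.ne m), kap_re]

lemma inv_mul_cast (m n a : ℕ) [NeZero m] [NeZero n] (h : m.Coprime n) (ha : a.Coprime (m * n))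
    (φ : ZMod (m * n) →+* ZMod m) :
    ((n : ZMod m))⁻¹ * φ ((a : ZMod (m * n))⁻¹) = (((a * n : ℕ) : ZMod m))⁻¹ := by
  symm
  apply ZMod.inv_eq_of_mul_eq_one
  have h1 : (a : ZMod (m * n)) * (a : ZMod (m * n))⁻¹ = 1 := ZMod.coe_mul_inv_eq_one a ha
  have h2 : (n : ZMod m) * (n : ZMod m)⁻¹ = 1 := ZMod.coe_mul_inv_eq_one n h.symm
  have h3 := congrArg φ h1
  rw [map_mul, map_natCast, map_one] at h3
  push_cast
  linear_combination ((n : ZMod m) * (n : ZMod m)⁻¹) * h3 + h2

lemma kk_mul (m n a : ℕ) (hm : m ≠ 0) (hn : n ≠ 0) (h : m.Coprime n) (ha : a.Coprime (m * n)) :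
    kk (m * n) a = kk m (a * n) * kk n (a * m) := by
  have : NeZero m := ⟨hm⟩
  have : NeZero n := ⟨hn⟩
  apply Complex.ofReal_injective
  rw [Complex.ofReal_mul, kk_eq, kk_eq, kk_eq, kap_mul m n h, inv_mul_cast m n a h ha]
  congr 2
  have ha' : a.Coprime (n * m) := by rwa [mul_comm]
  have := inv_mul_cast n m a h.symm ha' (ZMod.castHom (dvd_mul_right n m) (ZMod n))
  rw [← this]
  congr 1
  have h1 : (a : ZMod (m * n)) * (a : ZMod (m * n))⁻¹ = 1 := ZMod.coe_mul_inv_eq_one a ha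
  have h2 : (a : ZMod (n * m)) * (a : ZMod (n * m))⁻¹ = 1 := ZMod.coe_mul_inv_eq_one a ha'
  have h3 := congrArg (ZMod.castHom (dvd_mul_left n m) (ZMod n)) h1
  have h4 := congrArg (ZMod.castHom (dvd_mul_right n m) (ZMod n)) h2
  rw [map_mul, map_natCast, map_one] at h3 h4
  linear_combination (ZMod.castHom (dvd_mul_right n m) (ZMod n)) ((a : ZMod (n * m))⁻¹) * h3 -
    (ZMod.castHom (dvd_mul_left n m) (ZMod n)) ((a : ZMod (m * n))⁻¹) * h4

lemma kk_ne_zero {p : ℕ} (hp : p.Prime) (a : ℕ) : kk p a ≠ 0 := by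
  have := Fact.mk hp
  intro h
  have := kk_eq p a
  rw [h] at this
  exact kap_ne_zero p _ (by exact_mod_cast this.symm)

lemma kk_congr {m a b : ℕ} (h : a ≡ b [MOD m]) : kk m a = kk m b := by
  unfold kk
  split_ifs with hm
  · rfl
  · rw [(ZMod.natCast_eq_natCast_iff a b m).mpr h]

lemma kk_congr_neg {p a b : ℕ} (hp : p.Prime) (h : p ∣ a + b) : kk p a = kk p b := by
  have := Fact.mk hp
  apply Complex.ofReal_injective
  rw [kk_eq, kk_eq]
  have h1 : (a : ZMod p) = -(b : ZMod p) := by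
    have := (ZMod.natCast_eq_zero_iff (a + b) p).mpr h
    push_cast at this
    linear_combination this
  rw [h1, inv_neg, kap_neg]

lemma kk_two {a : ℕ} : kk 2 a = 1 := by
  apply Complex.ofReal_injective
  rw [kk_eq]
  unfold kap
  have : ∀ x : (ZMod 2)ˣ, ((a : ZMod 2)⁻¹ * ((x : ZMod 2) + ((x⁻¹ : (ZMod 2)ˣ) : ZMod 2))) = 0 := by
    intro x
    have hx : x = 1 := Subsingleton.elim _ _
    subst hx
    have : (1 : ZMod 2) + 1 = 0 := rfl
    simp [this]
  rw [Finset.sum_congr rfl (fun x _ => by rw [this x]), Finset.sum_const, Finset.card_univ,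
    ZMod.card_units, AddChar.map_zero_eq_one]
  simp

lemma kk_three_one : kk 3 1 = -1 := by
  apply Complex.ofReal_injective
  rw [kk_eq]
  unfold kap
  have hu : (Finset.univ : Finset (ZMod 3)ˣ) = {1, -1} := by decide
  rw [hu, Finset.sum_pair (by decide)]
  have h0 := AddChar.sum_eq_zero_of_ne_one
    (ψ := (stdAddChar : AddChar (ZMod 3) ℂ)) (by
      intro h
      have h1 : (stdAddChar : AddChar (ZMod 3) ℂ) 1 = stdAddChar (0 : ZMod 3) := by
        rw [h]; rfl
      exact absurd (injective_stdAddChar h1) (by decide))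
  have hv : (Finset.univ : Finset (ZMod 3)) = {0, 1, 2} := by decide
  rw [hv, Finset.sum_insert (by decide), Finset.sum_pair (by decide)] at h0
  have e1 : (((1 : ℕ) : ZMod 3)⁻¹ * (((1 : (ZMod 3)ˣ) : ZMod 3) +
      (((1 : (ZMod 3)ˣ)⁻¹ : (ZMod 3)ˣ) : ZMod 3))) = 2 := by
    simp only [Nat.cast_one, inv_one, Units.val_one]; decide
  have e2 : (((1 : ℕ) : ZMod 3)⁻¹ * (((-1 : (ZMod 3)ˣ) : ZMod 3) +
      (((-1 : (ZMod 3)ˣ)⁻¹ : (ZMod 3)ˣ) : ZMod 3))) = 1 := by
    simp only [Nat.cast_one, inv_neg, inv_one, Units.val_neg, Units.val_one]; decide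
  rw [e1, e2]
  simp only [AddChar.map_zero_eq_one] at h0
  push_cast
  linear_combination h0

lemma kk_three {a : ℕ} (ha : ¬ 3 ∣ a) : kk 3 a = -1 := by
  have h : a % 3 = 1 ∨ a % 3 = 2 := by omega
  rcases h with h | h
  · rw [← kk_three_one]
    exact kk_congr (by unfold Nat.ModEq; omega)
  · rw [← kk_three_one]
    exact kk_congr_neg Nat.prime_three (by omega)

/-- the sum of the problem statement -/
lemma sum_eq_kk (c : ℕ) (hc : c ≠ 0) :
    (∑ x ∈ Finset.range c with Nat.Coprime x c,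
      Complex.exp (2 * Real.pi * Complex.I *
        (((((x : ZMod c)⁻¹).val + x : ℕ) : ℂ) / (c : ℂ)))).re = kk c 1 := by
  have : NeZero c := ⟨hc⟩
  have : (∑ x ∈ Finset.range c with Nat.Coprime x c,
      Complex.exp (2 * Real.pi * Complex.I *
        (((((x : ZMod c)⁻¹).val + x : ℕ) : ℂ) / (c : ℂ)))) = (kk c 1 : ℂ) := by
    rw [kk_eq]
    unfold kap
    symm
    refine Finset.sum_bij (fun x _ => (x : ZMod c).val) ?_ ?_ ?_ ?_
    · intro x _
      simp only [Finset.mem_filter, Finset.mem_range]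
      exact ⟨ZMod.val_lt _, ZMod.val_coe_unit_coprime x⟩
    · intro x _ y _ hxy
      exact Units.ext (ZMod.val_injective c hxy)
    · intro y hy
      simp only [Finset.mem_filter, Finset.mem_range] at hy
      refine ⟨ZMod.unitOfCoprime y hy.2, Finset.mem_univ _, ?_⟩
      simp [ZMod.val_natCast, Nat.mod_eq_of_lt hy.1]
    · intro x _
      have h1 := stdAddChar_coe (N := c) (((((x : ZMod c).val : ZMod c)⁻¹).val + (x : ZMod c).val : ℕ) : ℤ)
      rw [mul_div_assoc, Int.cast_natCast, Int.cast_natCast] at h1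
      rw [← h1]
      congr 1
      simp [ZMod.inv_coe_unit, add_comm]
  rw [this, Complex.ofReal_re]

/-- The triangle identity: for `A = B + C` pairwise coprime and `d` coprime to `ABC`. -/
lemma triangle_pos {p q r : ℕ} (hp : p.Prime) (hq : q.Prime) (hr : r.Prime) (h3 : 3 < p)
    (hpq : p < q) (hqr : q < r) (hsum : p + r = 2 * q) :
    0 < kk (p * r) 1 * kk (2 * (p * q)) 1 * kk (2 * (q * r)) 1 := by
  have cpq : p.Coprime q := (Nat.coprime_primes hp hq).mpr (by omega)
  have cqr : q.Coprime r := (Nat.coprime_primes hq hr).mpr (by omega)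
  have cpr : p.Coprime r := (Nat.coprime_primes hp hr).mpr (by omega)
  have c2p : Nat.Coprime 2 p := (Nat.coprime_primes Nat.prime_two hp).mpr (by omega)
  have c2q : Nat.Coprime 2 q := (Nat.coprime_primes Nat.prime_two hq).mpr (by omega)
  have c2r : Nat.Coprime 2 r := (Nat.coprime_primes Nat.prime_two hr).mpr (by omega)
  have e1 : kk (p * r) 1 = kk p r * kk r p := by
    rw [kk_mul p r 1 hp.ne_zero hr.ne_zero cpr (Nat.coprime_one_left _), one_mul, one_mul]
  have e2 : kk (2 * (p * q)) 1 = kk p r * kk q (2 * p) := by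
    rw [kk_mul 2 (p * q) 1 two_ne_zero (mul_ne_zero hp.ne_zero hq.ne_zero) (c2p.mul_right c2q)
      (Nat.coprime_one_left _), kk_two, one_mul, one_mul,
      kk_mul p q 2 hp.ne_zero hq.ne_zero cpq (c2p.mul_right c2q)]
    congr 1
    apply kk_congr
    rw [← hsum]
    simp [Nat.ModEq]
  have e3 : kk (2 * (q * r)) 1 = kk q (2 * p) * kk r p := by
    rw [kk_mul 2 (q * r) 1 two_ne_zero (mul_ne_zero hq.ne_zero hr.ne_zero) (c2q.mul_right c2r)
      (Nat.coprime_one_left _), kk_two, one_mul, one_mul,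
      kk_mul q r 2 hq.ne_zero hr.ne_zero cqr (c2q.mul_right c2r)]
    congr 1
    · exact kk_congr_neg hq ⟨4, by omega⟩
    · apply kk_congr
      rw [← hsum]
      simp [Nat.ModEq]
  rw [e1, e2, e3]
  have n1 := kk_ne_zero hp r
  have n2 := kk_ne_zero hr p
  have n3 := kk_ne_zero hq (2 * p)
  have : kk p r * kk r p * (kk p r * kk q (2 * p)) * (kk q (2 * p) * kk r p) =
      (kk p r * kk r p * kk q (2 * p)) ^ 2 := by ring
  rw [this]
  positivity

lemma triangle_neg {p q r : ℕ} (hp : p.Prime) (hq : q.Prime) (hr : r.Prime) (h3 : 3 < p)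
    (hpq : p < q) (hqr : q < r) (hsum : p + r = 2 * q) :
    kk (3 * (p * r)) 1 * kk (3 * (2 * (p * q))) 1 * kk (3 * (2 * (q * r))) 1 < 0 := by
  have cpq : p.Coprime q := (Nat.coprime_primes hp hq).mpr (by omega)
  have cqr : q.Coprime r := (Nat.coprime_primes hq hr).mpr (by omega)
  have cpr : p.Coprime r := (Nat.coprime_primes hp hr).mpr (by omega)
  have c2p : Nat.Coprime 2 p := (Nat.coprime_primes Nat.prime_two hp).mpr (by omega)
  have c2q : Nat.Coprime 2 q := (Nat.coprime_primes Nat.prime_two hq).mpr (by omega)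
  have c2r : Nat.Coprime 2 r := (Nat.coprime_primes Nat.prime_two hr).mpr (by omega)
  have c3p : Nat.Coprime 3 p := (Nat.coprime_primes Nat.prime_three hp).mpr (by omega)
  have c3q : Nat.Coprime 3 q := (Nat.coprime_primes Nat.prime_three hq).mpr (by omega)
  have c3r : Nat.Coprime 3 r := (Nat.coprime_primes Nat.prime_three hr).mpr (by omega)
  have c32 : Nat.Coprime 3 2 := by decide
  have c6p : Nat.Coprime (3 * 2) p := Nat.Coprime.mul_left c3p c2p
  have c6q : Nat.Coprime (3 * 2) q := Nat.Coprime.mul_left c3q c2q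
  have c6r : Nat.Coprime (3 * 2) r := Nat.Coprime.mul_left c3r c2r
  have nd : ∀ {a : ℕ}, Nat.Coprime 3 a → ¬ 3 ∣ 1 * a := fun h => by
    rw [one_mul]; exact (Nat.Prime.coprime_iff_not_dvd Nat.prime_three).mp h
  have hp0 := hp.ne_zero
  have hq0 := hq.ne_zero
  have hr0 := hr.ne_zero
  have e1 : kk (3 * (p * r)) 1 = -(kk p (3 * r) * kk r (3 * p)) := by
    rw [kk_mul 3 (p * r) 1 three_ne_zero (by positivity) (c3p.mul_right c3r)
      (Nat.coprime_one_left _), kk_three (nd (c3p.mul_right c3r)), one_mul,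
      kk_mul p r 3 hp0 hr0 cpr (c3p.mul_right c3r)]
    ring
  have e2 : kk (3 * (2 * (p * q))) 1 = -(kk p (3 * r) * kk q (6 * p)) := by
    rw [kk_mul 3 (2 * (p * q)) 1 three_ne_zero (by positivity) (c32.mul_right (c3p.mul_right c3q))
      (Nat.coprime_one_left _), kk_three (nd (c32.mul_right (c3p.mul_right c3q))), one_mul,
      kk_mul 2 (p * q) 3 two_ne_zero (by positivity) (c2p.mul_right c2q)
      (c32.mul_right (c3p.mul_right c3q)), kk_two, one_mul,
      kk_mul p q (3 * 2) hp0 hq0 cpq (c6p.mul_right c6q)]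
    have : kk p (3 * 2 * q) = kk p (3 * r) := by
      apply kk_congr
      have : 3 * 2 * q = 3 * r + p * 3 := by omega
      rw [this]
      simp [Nat.ModEq]
    rw [this]
    norm_num
  have e3 : kk (3 * (2 * (q * r))) 1 = -(kk q (6 * p) * kk r (3 * p)) := by
    rw [kk_mul 3 (2 * (q * r)) 1 three_ne_zero (by positivity) (c32.mul_right (c3q.mul_right c3r))
      (Nat.coprime_one_left _), kk_three (nd (c32.mul_right (c3q.mul_right c3r))), one_mul,
      kk_mul 2 (q * r) 3 two_ne_zero (by positivity) (c2q.mul_right c2r)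
      (c32.mul_right (c3q.mul_right c3r)), kk_two, one_mul,
      kk_mul q r (3 * 2) hq0 hr0 cqr (c6q.mul_right c6r)]
    have h1 : kk r (3 * 2 * q) = kk r (3 * p) := by
      apply kk_congr
      have : 3 * 2 * q = 3 * p + r * 3 := by omega
      rw [this]
      simp [Nat.ModEq]
    have h2 : kk q (3 * 2 * r) = kk q (6 * p) := kk_congr_neg hq ⟨12, by omega⟩
    rw [h1, h2]
    norm_num
  rw [e1, e2, e3]
  have n1 := kk_ne_zero hp (3 * r)
  have n2 := kk_ne_zero hr (3 * p)
  have n3 := kk_ne_zero hq (6 * p)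
  have : -(kk p (3 * r) * kk r (3 * p)) * -(kk p (3 * r) * kk q (6 * p)) *
      -(kk q (6 * p) * kk r (3 * p)) = -(kk p (3 * r) * kk r (3 * p) * kk q (6 * p)) ^ 2 := by ring
  rw [this, neg_lt_zero]
  positivity

end Pool.Agent.Lib.MP_090305_nt
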