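import Pool.Agent.Lib.MP_090305_nt.Kloosterman
import Pool.Agent.Lib.helper22.PrimesAP

set_option autoImplicit false

open Finset

namespace Pool.Agent.Lib.MP_090305_nt

lemma sqf_prod (s : Finset ℕ) (hs : ∀ p ∈ s, p.Prime) :
    Squarefree (∏ p ∈ s, p) ∧ (∏ p ∈ s, p).primeFactors.card = s.card := by
  refine ⟨?_, by rw [Nat.primeFactors_prod hs]⟩
  apply Finset.squarefree_prod_of_pairwise_isCoprime
  · intro p hp q hq hpq
    exact Nat.coprime_iff_isRelPrime.mp ((Nat.coprime_primes (hs p hp) (hs q hq)).mpr hpq)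
  · intro p hp
    exact (hs p hp).prime.squarefree

lemma good2 {p q : ℕ} (hp : p.Prime) (hq : q.Prime) (h : p < q) :
    Squarefree (p * q) ∧ (p * q).primeFactors.card = 2 := by
  have := sqf_prod {p, q} (by simp [hp, hq])
  rwa [Finset.prod_pair h.ne, Finset.card_pair h.ne] at this

lemma good3 {a p q : ℕ} (ha : a.Prime) (hp : p.Prime) (hq : q.Prime) (h' : a < p) (h : p < q) :
    Squarefree (a * (p * q)) ∧ (a * (p * q)).primeFactors.card = 3 := by
  have := sqf_prod {a, p, q} (by simp [ha, hp, hq])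
  have hn : a ∉ ({p, q} : Finset ℕ) := by simp; omega
  rwa [Finset.prod_insert hn, Finset.card_insert_of_notMem hn, Finset.prod_pair h.ne,
    Finset.card_pair h.ne] at this

lemma good4 {p q : ℕ} (hp : p.Prime) (hq : q.Prime) (h' : 3 < p) (h : p < q) :
    Squarefree (3 * (2 * (p * q))) ∧ (3 * (2 * (p * q))).primeFactors.card = 4 := by
  have := sqf_prod {3, 2, p, q} (by simp [hp, hq, Nat.prime_two, Nat.prime_three])
  have hn : 2 ∉ ({p, q} : Finset ℕ) := by simp; omega
  have hn' : 3 ∉ ({2, p, q} : Finset ℕ) := by simp; omega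
  rwa [Finset.prod_insert hn', Finset.card_insert_of_notMem hn', Finset.prod_insert hn,
    Finset.card_insert_of_notMem hn, Finset.prod_pair h.ne, Finset.card_pair h.ne] at this

theorem exists_pos (N : ℕ) :
    ∃ c, N < c ∧ Squarefree c ∧ c.primeFactors.card ≤ 3 ∧ 0 < kk c 1 := by
  obtain ⟨p, q, r, hp, hq, hr, h1, h2, h3, h4⟩ :=
    Pool.Agent.Lib.helper22.AP3.exists_primes_threeAP (N + 3)
  have h := triangle_pos hp hq hr (by omega) h2 h3 h4
  have g1 := good2 hp hr (by omega)
  have g2 := good3 Nat.prime_two hp hq (by omega) h2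
  have g3 := good3 Nat.prime_two hq hr (by omega) h3
  by_contra hno
  push Not at hno
  have a1 := hno (p * r) (by nlinarith) g1.1 (by omega)
  have a2 := hno (2 * (p * q)) (by nlinarith) g2.1 (by omega)
  have a3 := hno (2 * (q * r)) (by nlinarith) g3.1 (by omega)
  have := mul_nonpos_of_nonneg_of_nonpos (mul_nonneg_of_nonpos_of_nonpos a1 a2) a3
  linarith

theorem exists_neg (N : ℕ) :
    ∃ c, N < c ∧ Squarefree c ∧ c.primeFactors.card ≤ 4 ∧ kk c 1 < 0 := by
  obtain ⟨p, q, r, hp, hq, hr, h1, h2, h3, h4⟩ :=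
    Pool.Agent.Lib.helper22.AP3.exists_primes_threeAP (N + 3)
  have h := triangle_neg hp hq hr (by omega) h2 h3 h4
  have g1 := good3 Nat.prime_three hp hr (by omega) (by omega)
  have g2 := good4 hp hq (by omega) h2
  have g3 := good4 hq hr (by omega) h3
  by_contra hno
  push Not at hno
  have a1 := hno (3 * (p * r)) (by nlinarith) g1.1 (by omega)
  have a2 := hno (3 * (2 * (p * q))) (by nlinarith) g2.1 (by omega)
  have a3 := hno (3 * (2 * (q * r))) (by nlinarith) g3.1 (by omega)
  have := mul_nonneg (mul_nonneg a1 a2) a3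
  linarith

end Pool.Agent.Lib.MP_090305_nt
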